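import Mathlib

set_option autoImplicit false

/-!
Edge sets on `ℕ` (pairs `(i,j)`, normally with `i < j`), functions `M` of edge sets that depend only on
the order type, and the removal of a cluster of twins.
-/

namespace Pool.Agent.helper10.K4

open Finset

/-- the vertices of an edge set -/
def vs (T : Finset (ℕ × ℕ)) : Finset ℕ := T.image Prod.fst ∪ T.image Prod.snd

/-- transport of an edge set by a map of the vertices -/
def mp (σ : ℕ → ℕ) (T : Finset (ℕ × ℕ)) : Finset (ℕ × ℕ) := T.image (Prod.map σ σ)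

/-- the sum of `M` over all subsets of `Z` -/
def SM {G : Type} [AddCommGroup G] (M : Finset (ℕ × ℕ) → G) (Z : Finset (ℕ × ℕ)) : G :=
  ∑ T ∈ Z.powerset, M T

lemma mem_vs {T : Finset (ℕ × ℕ)} {x : ℕ} : x ∈ vs T ↔ ∃ p ∈ T, p.1 = x ∨ p.2 = x := by
  unfold vs
  simp only [mem_union, mem_image]
  constructor
  · rintro (⟨p, hp, h⟩ | ⟨p, hp, h⟩)
    · exact ⟨p, hp, Or.inl h⟩
    · exact ⟨p, hp, Or.inr h⟩
  · rintro ⟨p, hp, h | h⟩
    · exact Or.inl ⟨p, hp, h⟩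
    · exact Or.inr ⟨p, hp, h⟩

lemma fst_mem_vs {T : Finset (ℕ × ℕ)} {p : ℕ × ℕ} (h : p ∈ T) : p.1 ∈ vs T :=
  mem_vs.2 ⟨p, h, Or.inl rfl⟩

lemma snd_mem_vs {T : Finset (ℕ × ℕ)} {p : ℕ × ℕ} (h : p ∈ T) : p.2 ∈ vs T :=
  mem_vs.2 ⟨p, h, Or.inr rfl⟩

lemma vs_mono {S T : Finset (ℕ × ℕ)} (h : S ⊆ T) : vs S ⊆ vs T := by
  intro x hx
  obtain ⟨p, hp, h'⟩ := mem_vs.1 hx
  exact mem_vs.2 ⟨p, h hp, h'⟩

lemma vs_mp (σ : ℕ → ℕ) (T : Finset (ℕ × ℕ)) : vs (mp σ T) = (vs T).image σ := by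
  ext x
  simp only [mem_vs, mp, mem_image]
  constructor
  · rintro ⟨p, ⟨r, hr, rfl⟩, h | h⟩
    · exact ⟨r.1, ⟨r, hr, Or.inl rfl⟩, h⟩
    · exact ⟨r.2, ⟨r, hr, Or.inr rfl⟩, h⟩
  · rintro ⟨y, ⟨r, hr, h | h⟩, rfl⟩
    · exact ⟨Prod.map σ σ r, ⟨r, hr, rfl⟩, Or.inl (by simp [h])⟩
    · exact ⟨Prod.map σ σ r, ⟨r, hr, rfl⟩, Or.inr (by simp [h])⟩

lemma mp_mp (σ τ : ℕ → ℕ) (T : Finset (ℕ × ℕ)) : mp τ (mp σ T) = mp (τ ∘ σ) T := by
  unfold mp
  rw [Finset.image_image]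
  congr 1

lemma mp_eq_self {σ : ℕ → ℕ} {T : Finset (ℕ × ℕ)} (h : ∀ x ∈ vs T, σ x = x) : mp σ T = T := by
  unfold mp
  ext p
  simp only [mem_image]
  constructor
  · rintro ⟨r, hr, rfl⟩
    have h1 := h _ (fst_mem_vs hr)
    have h2 := h _ (snd_mem_vs hr)
    have : Prod.map σ σ r = r := by ext <;> simp [h1, h2]
    rw [this]; exact hr
  · intro hp
    refine ⟨p, hp, ?_⟩
    have h1 := h _ (fst_mem_vs hp)
    have h2 := h _ (snd_mem_vs hp)
    ext <;> simp [h1, h2]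

lemma mp_congr {σ τ : ℕ → ℕ} {T : Finset (ℕ × ℕ)} (h : ∀ x ∈ vs T, σ x = τ x) :
    mp σ T = mp τ T := by
  unfold mp
  apply Finset.image_congr
  intro p hp
  have h1 := h _ (fst_mem_vs hp)
  have h2 := h _ (snd_mem_vs hp)
  ext <;> simp [h1, h2]

/-- increasing bijections between two finite sets of equal size -/
lemma exists_tr (J J' : Finset ℕ) (h : J.card = J'.card) :
    ∃ σ σ' : ℕ → ℕ, (∀ x ∉ J, σ x = x) ∧ (∀ x ∉ J', σ' x = x) ∧
      (∀ x ∈ J, σ x ∈ J') ∧ (∀ x ∈ J', σ' x ∈ J) ∧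
      (∀ x ∈ J, σ' (σ x) = x) ∧ (∀ x ∈ J', σ (σ' x) = x) ∧
      (∀ x ∈ J, ∀ y ∈ J, x < y → σ x < σ y) ∧ (∀ x ∈ J', ∀ y ∈ J', x < y → σ' x < σ' y) := by
  classical
  let f : J ≃o J' := (J.orderIsoOfFin rfl).symm.trans
    ((Fin.castOrderIso h).trans (J'.orderIsoOfFin rfl))
  refine ⟨fun x => if hx : x ∈ J then (f ⟨x, hx⟩ : ℕ) else x,
    fun x => if hx : x ∈ J' then (f.symm ⟨x, hx⟩ : ℕ) else x, ?_, ?_, ?_, ?_, ?_, ?_, ?_, ?_⟩
  · intro x hx; simp [hx]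
  · intro x hx; simp [hx]
  · intro x hx; simp only [hx, dif_pos]; exact (f ⟨x, hx⟩).2
  · intro x hx; simp only [hx, dif_pos]; exact (f.symm ⟨x, hx⟩).2
  · intro x hx
    simp only [hx, dif_pos]
    have : (f ⟨x, hx⟩ : ℕ) ∈ J' := (f ⟨x, hx⟩).2
    simp only [this, dif_pos]
    simp
  · intro x hx
    simp only [hx, dif_pos]
    have : (f.symm ⟨x, hx⟩ : ℕ) ∈ J := (f.symm ⟨x, hx⟩).2
    simp only [this, dif_pos]
    simp
  · intro x hx y hy hxy
    simp only [hx, hy, dif_pos]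
    have : (⟨x, hx⟩ : J) < ⟨y, hy⟩ := hxy
    exact f.strictMono this
  · intro x hx y hy hxy
    simp only [hx, hy, dif_pos]
    have : (⟨x, hx⟩ : J') < ⟨y, hy⟩ := hxy
    exact f.symm.strictMono this

/-- order invariance of `M` on edge sets with at most `k` vertices -/
def OrdInv {G : Type} (M : Finset (ℕ × ℕ) → G) (k : ℕ) : Prop :=
  ∀ (T : Finset (ℕ × ℕ)) (σ : ℕ → ℕ), (∀ p ∈ T, p.1 < p.2) →
    (∀ x ∈ vs T, ∀ y ∈ vs T, x < y → σ x < σ y) → (vs T).card ≤ k → M (mp σ T) = M T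

/-- the data of a cluster `C` of twins of `Z` -/
structure Twins (Z : Finset (ℕ × ℕ)) (C : Finset ℕ) : Prop where
  lt : ∀ p ∈ Z, p.1 < p.2
  ord : ∀ w ∈ vs Z, w ∉ C → ∀ c ∈ C, ∀ c' ∈ C, w < c → w < c'
  tw1 : ∀ w, w ∉ C → ∀ c ∈ C, ∀ c' ∈ C, (w, c) ∈ Z → (w, c') ∈ Z
  tw2 : ∀ w, w ∉ C → ∀ c ∈ C, ∀ c' ∈ C, (c, w) ∈ Z → (c', w) ∈ Z
  ins : ∀ a ∈ C, ∀ b ∈ C, ∀ a' ∈ C, ∀ b' ∈ C, a' < b' → (a, b) ∈ Z → (a', b') ∈ Z

section

variable {G : Type} [AddCommGroup G]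

/-- one direction of the transport of the subsets with a given trace on the cluster -/
lemma transport {Z : Finset (ℕ × ℕ)} {C J J' : Finset ℕ} (hZ : Twins Z C) (hJ : J ⊆ C)
    (hJ' : J' ⊆ C) {σ σ' : ℕ → ℕ} (h1 : ∀ x ∉ J, σ x = x) (h3 : ∀ x ∈ J, σ x ∈ J')
    (h4 : ∀ x ∈ J', σ' x ∈ J)
    (h6 : ∀ x ∈ J', σ (σ' x) = x) (h7 : ∀ x ∈ J, ∀ y ∈ J, x < y → σ x < σ y)
    {T : Finset (ℕ × ℕ)} (hT : T ⊆ Z) (hTJ : vs T ∩ C = J) :
    mp σ T ⊆ Z ∧ vs (mp σ T) ∩ C = J' ∧ (∀ x ∈ vs T, ∀ y ∈ vs T, x < y → σ x < σ y) := by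
  classical
  have hmem : ∀ x ∈ vs T, x ∈ C → x ∈ J := fun x hx hc => by
    rw [← hTJ]; exact mem_inter.2 ⟨hx, hc⟩
  have hnC : ∀ x, x ∉ C → σ x = x := fun x hx => h1 x (fun h => hx (hJ h))
  have hmono : ∀ x ∈ vs T, ∀ y ∈ vs T, x < y → σ x < σ y := by
    intro x hx y hy hxy
    by_cases hxC : x ∈ C
    · have hxJ := hmem x hx hxC
      by_cases hyC : y ∈ C
      · exact h7 x hxJ y (hmem y hy hyC) hxy
      · rw [hnC y hyC]
        have hs : σ x ∈ C := hJ' (h3 x hxJ)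
        by_contra hcon
        have hne : y ≠ σ x := fun h => hyC (h ▸ hs)
        have : y < σ x := by omega
        have := hZ.ord y (vs_mono hT hy) hyC (σ x) hs x hxC this
        omega
    · rw [hnC x hxC]
      by_cases hyC : y ∈ C
      · have hyJ := hmem y hy hyC
        exact hZ.ord x (vs_mono hT hx) hxC y hyC (σ y) (hJ' (h3 y hyJ)) hxy
      · rw [hnC y hyC]; exact hxy
  refine ⟨?_, ?_, hmono⟩
  · intro p hp
    unfold mp at hp
    obtain ⟨r, hr, rfl⟩ := mem_image.1 hp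
    obtain ⟨u, v⟩ := r
    have hu := fst_mem_vs hr
    have hv := snd_mem_vs hr
    simp only at hu hv
    have hlt : u < v := hZ.lt _ (hT hr)
    show (σ u, σ v) ∈ Z
    by_cases huC : u ∈ C
    · have huJ := hmem u hu huC
      by_cases hvC : v ∈ C
      · have hvJ := hmem v hv hvC
        exact hZ.ins u huC v hvC (σ u) (hJ' (h3 u huJ)) (σ v) (hJ' (h3 v hvJ))
          (h7 u huJ v hvJ hlt) (hT hr)
      · rw [hnC v hvC]
        exact hZ.tw2 v hvC u huC (σ u) (hJ' (h3 u huJ)) (hT hr)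
    · rw [hnC u huC]
      by_cases hvC : v ∈ C
      · have hvJ := hmem v hv hvC
        exact hZ.tw1 u huC v hvC (σ v) (hJ' (h3 v hvJ)) (hT hr)
      · rw [hnC v hvC]; exact hT hr
  · rw [vs_mp]
    ext y
    simp only [mem_inter, mem_image]
    constructor
    · rintro ⟨⟨x, hx, rfl⟩, hC⟩
      by_cases hxC : x ∈ C
      · exact h3 x (hmem x hx hxC)
      · rw [hnC x hxC] at hC; exact absurd hC hxC
    · intro hy
      refine ⟨⟨σ' y, ?_, h6 y hy⟩, hJ' hy⟩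
      have := h4 y hy
      rw [← hTJ] at this
      exact (mem_inter.1 this).1

/-- the subsets of `Z` with trace `J` on `C` -/
def tr (Z : Finset (ℕ × ℕ)) (C J : Finset ℕ) : Finset (Finset (ℕ × ℕ)) :=
  Z.powerset.filter (fun T => vs T ∩ C = J)

lemma sum_tr_eq {M : Finset (ℕ × ℕ) → G} {k : ℕ} (hM : OrdInv M k)
    (hM0 : ∀ T, k < (vs T).card → M T = 0) {Z : Finset (ℕ × ℕ)} {C J J' : Finset ℕ}
    (hZ : Twins Z C) (hJ : J ⊆ C) (hJ' : J' ⊆ C) (hc : J.card = J'.card) :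
    ∑ T ∈ tr Z C J, M T = ∑ T ∈ tr Z C J', M T := by
  classical
  obtain ⟨σ, σ', h1, h2, h3, h4, h5, h6, h7, h8⟩ := exists_tr J J' hc
  have hmap : ∀ T ∈ tr Z C J, mp σ T ∈ tr Z C J' := by
    intro T hT
    simp only [tr, mem_filter, mem_powerset] at hT ⊢
    have := transport hZ hJ hJ' h1 h3 h4 h6 h7 hT.1 hT.2
    exact ⟨this.1, this.2.1⟩
  have hmap' : ∀ T ∈ tr Z C J', mp σ' T ∈ tr Z C J := by
    intro T hT
    simp only [tr, mem_filter, mem_powerset] at hT ⊢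
    have := transport hZ hJ' hJ h2 h4 h3 h5 h8 hT.1 hT.2
    exact ⟨this.1, this.2.1⟩
  refine Finset.sum_nbij' (fun T => mp σ T) (fun T => mp σ' T) hmap hmap' ?_ ?_ ?_
  · intro T hT
    simp only [tr, mem_filter, mem_powerset] at hT
    show mp σ' (mp σ T) = T
    rw [mp_mp]
    apply mp_eq_self
    intro x hx
    by_cases hxC : x ∈ C
    · have : x ∈ J := by rw [← hT.2]; exact mem_inter.2 ⟨hx, hxC⟩
      exact h5 x this
    · simp only [Function.comp]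
      rw [h1 x (fun h => hxC (hJ h)), h2 x (fun h => hxC (hJ' h))]
  · intro T hT
    simp only [tr, mem_filter, mem_powerset] at hT
    show mp σ (mp σ' T) = T
    rw [mp_mp]
    apply mp_eq_self
    intro x hx
    by_cases hxC : x ∈ C
    · have : x ∈ J' := by rw [← hT.2]; exact mem_inter.2 ⟨hx, hxC⟩
      exact h6 x this
    · simp only [Function.comp]
      rw [h2 x (fun h => hxC (hJ' h)), h1 x (fun h => hxC (hJ h))]
  · intro T hT
    simp only [tr, mem_filter, mem_powerset] at hT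
    have hh := transport hZ hJ hJ' h1 h3 h4 h6 h7 hT.1 hT.2
    by_cases hk : (vs T).card ≤ k
    · exact (hM T σ (fun p hp => hZ.lt p (hT.1 hp)) hh.2.2 hk).symm
    · rw [hM0 T (not_le.1 hk), hM0 (mp σ T)]
      rw [vs_mp, Finset.card_image_of_injOn]
      · exact not_le.1 hk
      · intro x hx y hy hxy
        rcases lt_trichotomy x y with h | h | h
        · exact absurd hxy (ne_of_lt (hh.2.2 x hx y hy h))
        · exact h
        · exact absurd hxy.symm (ne_of_lt (hh.2.2 y hy x hx h))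

/-- **Removal of a cluster**: if all binomial coefficients `(q choose j)`, `1 ≤ j ≤ k`, kill `G`, then
a cluster of `q` twins is invisible. -/
theorem cluster {M : Finset (ℕ × ℕ) → G} {k q : ℕ} (hM : OrdInv M k)
    (hM0 : ∀ T, k < (vs T).card → M T = 0)
    (hq : ∀ j, 1 ≤ j → j ≤ k → ∀ g : G, (q.choose j) • g = 0)
    {Z : Finset (ℕ × ℕ)} {C : Finset ℕ} (hZ : Twins Z C) (hC : C.card = q) :
    SM M Z = SM M (Z.filter (fun p => p.1 ∉ C ∧ p.2 ∉ C)) := by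
  classical
  have hmaps : ∀ T ∈ Z.powerset, vs T ∩ C ∈ C.powerset :=
    fun T _ => mem_powerset.2 inter_subset_right
  have e1 : SM M Z = ∑ J ∈ C.powerset, ∑ T ∈ tr Z C J, M T := by
    unfold SM tr
    exact (Finset.sum_fiberwise_of_maps_to hmaps M).symm
  -- a function of the cardinality
  have hex : ∀ j, ∃ g : G, ∀ J ⊆ C, J.card = j → ∑ T ∈ tr Z C J, M T = g := by
    intro j
    by_cases h : ∃ J ⊆ C, J.card = j
    · obtain ⟨J, hJ, hj⟩ := h
      exact ⟨_, fun J' hJ' hj' => sum_tr_eq hM hM0 hZ hJ' hJ (hj'.trans hj.symm)⟩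
    · exact ⟨0, fun J hJ hj => absurd ⟨J, hJ, hj⟩ h⟩
  choose f hf using hex
  have e2 : ∑ J ∈ C.powerset, ∑ T ∈ tr Z C J, M T = ∑ J ∈ C.powerset, f J.card := by
    apply Finset.sum_congr rfl
    intro J hJ
    exact hf _ J (mem_powerset.1 hJ) rfl
  have e3 : ∑ J ∈ C.powerset, f J.card = ∑ m ∈ range (C.card + 1), C.card.choose m • f m :=
    Finset.sum_powerset_apply_card f
  have e4 : ∑ m ∈ range (C.card + 1), C.card.choose m • f m = f 0 := by
    rw [Finset.sum_range_succ']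
    simp only [Nat.choose_zero_right, one_smul]
    rw [Finset.sum_eq_zero, zero_add]
    intro j hj
    rw [mem_range] at hj
    by_cases hk : j + 1 ≤ k
    · rw [hC]; exact hq (j + 1) (by omega) hk _
    · obtain ⟨J, hJ, hjc⟩ := Finset.exists_subset_card_eq (s := C) (n := j + 1) (by omega)
      rw [← hf (j + 1) J hJ hjc, Finset.sum_eq_zero, smul_zero]
      intro T hT
      simp only [tr, mem_filter, mem_powerset] at hT
      apply hM0
      calc k < j + 1 := by omega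
        _ = J.card := hjc.symm
        _ ≤ (vs T).card := by
          apply Finset.card_le_card
          rw [← hT.2]
          exact inter_subset_left
  have e5 : f 0 = SM M (Z.filter (fun p => p.1 ∉ C ∧ p.2 ∉ C)) := by
    rw [← hf 0 ∅ (empty_subset _) card_empty]
    unfold SM
    apply Finset.sum_congr _ (fun _ _ => rfl)
    ext T
    simp only [tr, mem_filter, mem_powerset]
    constructor
    · rintro ⟨hT, hd⟩ p hp
      rw [mem_filter]
      refine ⟨hT hp, fun h => ?_, fun h => ?_⟩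
      · have : p.1 ∈ vs T ∩ C := mem_inter.2 ⟨fst_mem_vs hp, h⟩
        rw [hd] at this; simp at this
      · have : p.2 ∈ vs T ∩ C := mem_inter.2 ⟨snd_mem_vs hp, h⟩
        rw [hd] at this; simp at this
    · intro hT
      refine ⟨fun p hp => (mem_filter.1 (hT hp)).1, ?_⟩
      rw [Finset.eq_empty_iff_forall_notMem]
      intro x hx
      obtain ⟨h1, h2⟩ := mem_inter.1 hx
      obtain ⟨p, hp, h | h⟩ := mem_vs.1 h1
      · exact (mem_filter.1 (hT hp)).2.1 (h ▸ h2)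
      · exact (mem_filter.1 (hT hp)).2.2 (h ▸ h2)
  rw [e1, e2, e3, e4, e5]

end

end Pool.Agent.helper10.K4
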