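import Mathlib
import Pool.Agent.helper10.K4.Cluster

set_option autoImplicit false

/-!
The two graphs `X`, `X'` on `3q+1` ordered vertices which differ exactly in a `K₄` and both collapse to
the empty graph by removals of clusters of `q` twins.
The vertices are, in this order, `0 | 1 | C₂ | 3 | C₄ | 5 | C₆` with clusters `C₂, C₄, C₆` of size `q-1`.
-/

namespace Pool.Agent.helper10.K4

open Finset

/-- the class of a vertex -/
def cl (q x : ℕ) : ℕ :=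
  if x = 0 then 0 else if x = 1 then 1 else if x ≤ q then 2 else if x = q + 1 then 3
  else if x ≤ 2 * q then 4 else if x = 2 * q + 1 then 5 else 6

lemma cl_cases (q x : ℕ) (hq : 1 ≤ q) :
    (cl q x = 0 ∧ x = 0) ∨ (cl q x = 1 ∧ x = 1) ∨ (cl q x = 2 ∧ 2 ≤ x ∧ x ≤ q) ∨
    (cl q x = 3 ∧ x = q + 1) ∨ (cl q x = 4 ∧ q + 2 ≤ x ∧ x ≤ 2 * q) ∨
    (cl q x = 5 ∧ x = 2 * q + 1) ∨ (cl q x = 6 ∧ 2 * q + 2 ≤ x) := by
  unfold cl
  split_ifs <;> omega

lemma cl_mono {q x y : ℕ} (hq : 1 ≤ q) (h : x ≤ y) : cl q x ≤ cl q y := by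
  rcases cl_cases q x hq with h1 | h1 | h1 | h1 | h1 | h1 | h1 <;>
  rcases cl_cases q y hq with h2 | h2 | h2 | h2 | h2 | h2 | h2 <;> omega

/-- the graph with class relation `R` on the classes in `S` -/
def Zg (q : ℕ) (R : ℕ → ℕ → Bool) (S : Finset ℕ) : Finset (ℕ × ℕ) :=
  ((range (3 * q + 1)) ×ˢ (range (3 * q + 1))).filter
    (fun p => p.1 < p.2 ∧ cl q p.1 ∈ S ∧ cl q p.2 ∈ S ∧ R (cl q p.1) (cl q p.2) = true)

/-- the union of two classes -/
def Cg (q a b : ℕ) : Finset ℕ := (range (3 * q + 1)).filter (fun x => cl q x = a ∨ cl q x = b)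

lemma mem_Zg {q : ℕ} {R : ℕ → ℕ → Bool} {S : Finset ℕ} {x y : ℕ} :
    (x, y) ∈ Zg q R S ↔ (x < 3 * q + 1 ∧ y < 3 * q + 1) ∧ x < y ∧ cl q x ∈ S ∧ cl q y ∈ S ∧
      R (cl q x) (cl q y) = true := by
  simp [Zg]

lemma mem_Cg {q a b x : ℕ} : x ∈ Cg q a b ↔ x < 3 * q + 1 ∧ (cl q x = a ∨ cl q x = b) := by
  simp [Cg]

/-- the condition on the classes -/
def OK (R : ℕ → ℕ → Bool) (S : Finset ℕ) (a b : ℕ) : Prop :=
  a ∈ S ∧ b ∈ S ∧ R a a = R b b ∧ R a b = R b b ∧ R b a = R b b ∧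
  ∀ s ∈ S, s ≠ a → s ≠ b →
    R s a = R s b ∧ R a s = R b s ∧ ((s < a ∧ s < b) ∨ (a < s ∧ b < s))

instance (R : ℕ → ℕ → Bool) (S : Finset ℕ) (a b : ℕ) : Decidable (OK R S a b) := by
  unfold OK; infer_instance

lemma twins {q : ℕ} (hq : 1 ≤ q) {R : ℕ → ℕ → Bool} {S : Finset ℕ} {a b : ℕ}
    (h : OK R S a b) : Twins (Zg q R S) (Cg q a b) := by
  obtain ⟨ha, hb, r1, r2, r3, hs⟩ := h
  refine ⟨?_, ?_, ?_, ?_, ?_⟩
  · rintro ⟨x, y⟩ hp
    exact (mem_Zg.1 hp).2.1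
  · intro w hw hwC c hc c' hc' hlt
    have hwr : w < 3 * q + 1 ∧ cl q w ∈ S := by
      obtain ⟨⟨x, y⟩, hp, h | h⟩ := mem_vs.1 hw
      · simp only at h; subst h; exact ⟨(mem_Zg.1 hp).1.1, (mem_Zg.1 hp).2.2.1⟩
      · simp only at h; subst h; exact ⟨(mem_Zg.1 hp).1.2, (mem_Zg.1 hp).2.2.2.1⟩
    have hne : ¬ (cl q w = a ∨ cl q w = b) := fun h => hwC (mem_Cg.2 ⟨hwr.1, h⟩)
    push Not at hne
    have h3 := (hs _ hwr.2 hne.1 hne.2).2.2
    have hc1 := (mem_Cg.1 hc).2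
    have hc2 := (mem_Cg.1 hc').2
    have m1 := cl_mono hq hlt.le
    by_contra hcon
    have m2 := cl_mono hq (not_lt.1 hcon)
    rcases hc1 with e1 | e1 <;> rcases hc2 with e2 | e2 <;> omega
  · intro w hwC c hc c' hc' hp
    obtain ⟨⟨l1, l2⟩, l3, l4, l5, l6⟩ := mem_Zg.1 hp
    have hne : ¬ (cl q w = a ∨ cl q w = b) := fun h => hwC (mem_Cg.2 ⟨l1, h⟩)
    push Not at hne
    have h3 := hs _ l4 hne.1 hne.2
    have hc1 := (mem_Cg.1 hc).2
    obtain ⟨hl', hc2⟩ := mem_Cg.1 hc'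
    refine mem_Zg.2 ⟨⟨l1, hl'⟩, ?_, l4, ?_, ?_⟩
    · have m1 := cl_mono hq l3.le
      by_contra hcon
      have m2 := cl_mono hq (not_lt.1 hcon)
      rcases hc1 with e1 | e1 <;> rcases hc2 with e2 | e2 <;> omega
    · rcases hc2 with e2 | e2 <;> rw [e2] <;> assumption
    · rcases hc1 with e1 | e1 <;> rcases hc2 with e2 | e2 <;> rw [e1] at l6 <;> rw [e2]
      · exact l6
      · rw [← h3.1]; exact l6
      · rw [h3.1]; exact l6
      · exact l6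
  · intro w hwC c hc c' hc' hp
    obtain ⟨⟨l1, l2⟩, l3, l4, l5, l6⟩ := mem_Zg.1 hp
    have hne : ¬ (cl q w = a ∨ cl q w = b) := fun h => hwC (mem_Cg.2 ⟨l2, h⟩)
    push Not at hne
    have h3 := hs _ l5 hne.1 hne.2
    have hc1 := (mem_Cg.1 hc).2
    obtain ⟨hl', hc2⟩ := mem_Cg.1 hc'
    refine mem_Zg.2 ⟨⟨hl', l2⟩, ?_, ?_, l5, ?_⟩
    · have m1 := cl_mono hq l3.le
      by_contra hcon
      have m2 := cl_mono hq (not_lt.1 hcon)
      rcases hc1 with e1 | e1 <;> rcases hc2 with e2 | e2 <;> omega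
    · rcases hc2 with e2 | e2 <;> rw [e2] <;> assumption
    · rcases hc1 with e1 | e1 <;> rcases hc2 with e2 | e2 <;> rw [e1] at l6 <;> rw [e2]
      · exact l6
      · rw [← h3.2.1]; exact l6
      · rw [h3.2.1]; exact l6
      · exact l6
  · intro x hx y hy x' hx' y' hy' hlt hp
    obtain ⟨⟨l1, l2⟩, l3, l4, l5, l6⟩ := mem_Zg.1 hp
    have c1 := (mem_Cg.1 hx).2
    have c2 := (mem_Cg.1 hy).2
    obtain ⟨b1, c3⟩ := mem_Cg.1 hx'
    obtain ⟨b2, c4⟩ := mem_Cg.1 hy'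
    refine mem_Zg.2 ⟨⟨b1, b2⟩, hlt, ?_, ?_, ?_⟩
    · rcases c3 with e | e <;> rw [e] <;> assumption
    · rcases c4 with e | e <;> rw [e] <;> assumption
    · have hbb : R b b = true := by
        rcases c1 with e1 | e1 <;> rcases c2 with e2 | e2 <;> rw [e1, e2] at l6 <;> simp_all
      rcases c3 with e1 | e1 <;> rcases c4 with e2 | e2 <;> rw [e1, e2] <;> simp_all

lemma filter_Zg {q : ℕ} {R : ℕ → ℕ → Bool} {S : Finset ℕ} {a b : ℕ} :
    (Zg q R S).filter (fun p => p.1 ∉ Cg q a b ∧ p.2 ∉ Cg q a b)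
      = Zg q R (S.filter (fun s => s ≠ a ∧ s ≠ b)) := by
  ext ⟨x, y⟩
  simp only [mem_filter, mem_Zg, mem_Cg]
  constructor
  · rintro ⟨⟨⟨l1, l2⟩, l3, l4, l5, l6⟩, h1, h2⟩
    push Not at h1 h2
    exact ⟨⟨l1, l2⟩, l3, ⟨l4, h1 l1⟩, ⟨l5, h2 l2⟩, l6⟩
  · rintro ⟨⟨l1, l2⟩, l3, ⟨l4, l4'⟩, ⟨l5, l5'⟩, l6⟩
    refine ⟨⟨⟨l1, l2⟩, l3, l4, l5, l6⟩, fun h => ?_, fun h => ?_⟩
    · rcases h.2 with e | e
      · exact l4'.1 e
      · exact l4'.2 e
    · rcases h.2 with e | e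
      · exact l5'.1 e
      · exact l5'.2 e

lemma drop_Zg {q : ℕ} {R : ℕ → ℕ → Bool} {S : Finset ℕ} {a : ℕ}
    (h : ∀ s ∈ S, R s a = false ∧ R a s = false) :
    Zg q R S = Zg q R (S.filter (fun s => s ≠ a)) := by
  ext ⟨x, y⟩
  simp only [mem_Zg, mem_filter]
  constructor
  · rintro ⟨⟨l1, l2⟩, l3, l4, l5, l6⟩
    refine ⟨⟨l1, l2⟩, l3, ⟨l4, fun e => ?_⟩, ⟨l5, fun e => ?_⟩, l6⟩
    · rw [e, (h _ l5).2] at l6; exact Bool.noConfusion l6
    · rw [e, (h _ l4).1] at l6; exact Bool.noConfusion l6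
  · rintro ⟨⟨l1, l2⟩, l3, l4, l5, l6⟩
    exact ⟨⟨l1, l2⟩, l3, l4.1, l5.1, l6⟩

lemma card_23 {q : ℕ} (hq : 1 ≤ q) : (Cg q 2 3).card = q := by
  have : Cg q 2 3 = Ico 2 (q + 2) := by
    ext x
    rw [mem_Cg, mem_Ico]
    rcases cl_cases q x hq with h | h | h | h | h | h | h <;> omega
  rw [this, Nat.card_Ico]; omega

lemma card_45 {q : ℕ} (hq : 1 ≤ q) : (Cg q 4 5).card = q := by
  have : Cg q 4 5 = Ico (q + 2) (2 * q + 2) := by
    ext x
    rw [mem_Cg, mem_Ico]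
    rcases cl_cases q x hq with h | h | h | h | h | h | h <;> omega
  rw [this, Nat.card_Ico]; omega

lemma card_34 {q : ℕ} (hq : 1 ≤ q) : (Cg q 3 4).card = q := by
  have : Cg q 3 4 = Ico (q + 1) (2 * q + 1) := by
    ext x
    rw [mem_Cg, mem_Ico]
    rcases cl_cases q x hq with h | h | h | h | h | h | h <;> omega
  rw [this, Nat.card_Ico]; omega

lemma card_56 {q : ℕ} (hq : 1 ≤ q) : (Cg q 5 6).card = q := by
  have : Cg q 5 6 = Ico (2 * q + 1) (3 * q + 1) := by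
    ext x
    rw [mem_Cg, mem_Ico]
    rcases cl_cases q x hq with h | h | h | h | h | h | h <;> omega
  rw [this, Nat.card_Ico]; omega

lemma card_12 {q : ℕ} (hq : 1 ≤ q) : (Cg q 1 2).card = q := by
  have : Cg q 1 2 = Ico 1 (q + 1) := by
    ext x
    rw [mem_Cg, mem_Ico]
    rcases cl_cases q x hq with h | h | h | h | h | h | h <;> omega
  rw [this, Nat.card_Ico]; omega

lemma card_06 {q : ℕ} (hq : 1 ≤ q) : (Cg q 0 6).card = q := by
  have : Cg q 0 6 = insert 0 (Ico (2 * q + 2) (3 * q + 1)) := by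
    ext x
    rw [mem_Cg, mem_insert, mem_Ico]
    rcases cl_cases q x hq with h | h | h | h | h | h | h <;> omega
  rw [this, card_insert_of_notMem (by simp), Nat.card_Ico]; omega

/-- the class relation of `X` -/
def RX (a b : ℕ) : Bool :=
  decide ((min a b, max a b) ∈ [(0, 2), (0, 3), (1, 4), (1, 5), (2, 5), (3, 5), (0, 6), (2, 6),
    (3, 6), (4, 6), (5, 6), (6, 6), (0, 0)])

/-- the class relation of `X'` -/
def RX' (a b : ℕ) : Bool :=
  decide ((min a b, max a b) ∈ [(0, 1), (0, 5), (1, 3), (0, 2), (1, 4), (2, 5), (0, 6), (2, 6),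
    (3, 6), (4, 6), (5, 6), (6, 6), (5, 5)])

section

variable {G : Type} [AddCommGroup G]

lemma SM_step {M : Finset (ℕ × ℕ) → G} {k q : ℕ} (hM : OrdInv M k)
    (hM0 : ∀ T, k < (vs T).card → M T = 0)
    (hq : ∀ j, 1 ≤ j → j ≤ k → ∀ g : G, (q.choose j) • g = 0) (hq1 : 1 ≤ q)
    {R : ℕ → ℕ → Bool} {S S' : Finset ℕ} {a b : ℕ}
    (h : OK R S a b) (hC : (Cg q a b).card = q) (hS' : S.filter (fun s => s ≠ a ∧ s ≠ b) = S') :
    SM M (Zg q R S) = SM M (Zg q R S') := by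
  rw [cluster hM hM0 hq (twins hq1 h) hC, filter_Zg, hS']

lemma SM_empty (M : Finset (ℕ × ℕ) → G) : SM M ∅ = M ∅ := by
  simp [SM]

/-- **the configuration**: both graphs are invisible for `M`. -/
theorem config {M : Finset (ℕ × ℕ) → G} {k q : ℕ} (hM : OrdInv M k)
    (hM0 : ∀ T, k < (vs T).card → M T = 0)
    (hq : ∀ j, 1 ≤ j → j ≤ k → ∀ g : G, (q.choose j) • g = 0) (hq1 : 1 ≤ q) :
    SM M (Zg q RX {0, 1, 2, 3, 4, 5, 6}) = M ∅ ∧ SM M (Zg q RX' {0, 1, 2, 3, 4, 5, 6}) = M ∅ := by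
  constructor
  · rw [SM_step hM hM0 hq hq1 (a := 2) (b := 3) (S' := {0, 1, 4, 5, 6}) (by decide)
      (card_23 hq1) (by decide),
      SM_step hM hM0 hq hq1 (a := 4) (b := 5) (S' := {0, 1, 6}) (by decide)
      (card_45 hq1) (by decide),
      drop_Zg (a := 1) (by decide), show ({0, 1, 6} : Finset ℕ).filter (fun s => s ≠ 1) = {0, 6} by decide,
      SM_step hM hM0 hq hq1 (a := 0) (b := 6) (S' := ∅) (by decide)
      (card_06 hq1) (by decide)]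
    have : Zg q RX ∅ = ∅ := by
      ext ⟨x, y⟩
      simp [mem_Zg]
    rw [this, SM_empty]
  · rw [SM_step hM hM0 hq hq1 (a := 3) (b := 4) (S' := {0, 1, 2, 5, 6}) (by decide)
      (card_34 hq1) (by decide),
      SM_step hM hM0 hq hq1 (a := 5) (b := 6) (S' := {0, 1, 2}) (by decide)
      (card_56 hq1) (by decide),
      SM_step hM hM0 hq hq1 (a := 1) (b := 2) (S' := {0}) (by decide)
      (card_12 hq1) (by decide)]
    have : Zg q RX' {0} = ∅ := by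
      ext ⟨x, y⟩
      rw [mem_Zg]
      simp only [mem_singleton, notMem_empty, iff_false]
      rintro ⟨-, -, e1, e2, e3⟩
      rw [e1, e2] at e3
      exact absurd e3 (by decide)
    rw [this, SM_empty]

end

/-- the two graphs differ exactly in the `K₄` on `0, 1, q+1, 2q+1` -/
theorem config_diff {q : ℕ} (hq : 1 ≤ q) (x y : ℕ) :
    ¬ ((x, y) ∈ Zg q RX {0, 1, 2, 3, 4, 5, 6} ↔ (x, y) ∈ Zg q RX' {0, 1, 2, 3, 4, 5, 6}) ↔
      (x < y ∧ x ∈ ({0, 1, q + 1, 2 * q + 1} : Finset ℕ) ∧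
        y ∈ ({0, 1, q + 1, 2 * q + 1} : Finset ℕ)) := by
  rw [mem_Zg, mem_Zg]
  simp only [mem_insert, mem_singleton]
  by_cases hxy : x < y
  swap
  · simp [hxy]
  by_cases hy : y < 3 * q + 1
  swap
  · simp only [hy, and_false, false_and, not_true_eq_false, false_iff]
    omega
  have hx : x < 3 * q + 1 := by omega
  simp only [hx, hy, hxy, true_and, and_self]
  rcases cl_cases q x hq with h | h | h | h | h | h | h <;>
  rcases cl_cases q y hq with h' | h' | h' | h' | h' | h' | h' <;>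
  first
  | (exfalso; omega)
  | (rw [h.1, h'.1]; simp [RX, RX']; omega)

end Pool.Agent.helper10.K4
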