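import Mathlib

/-! # Toggling a fixed set of elements in a function of bounded degree of finite sets -/

namespace Pool.Agent.helper10.K4

open Finset

section
variable {E : Type*} [DecidableEq E] {G : Type*} [AddCommGroup G]

/-- toggling one element -/
lemma toggle_one (D : ℕ) (c : Finset E → G) (hc : ∀ T, D < T.card → c T = 0) (e : E) :
    ∃ c' : Finset E → G, (∀ T, D < T.card → c' T = 0) ∧
      ∀ Y : Finset E, ∑ T ∈ (symmDiff {e} Y).powerset, c T = ∑ T ∈ Y.powerset, c' T := by
  refine ⟨fun T => if e ∈ T then - c T else c T + c (insert e T), ?_, ?_⟩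
  · intro T hT
    by_cases he : e ∈ T
    · simp only [he, if_true, hc T hT, neg_zero]
    · simp only [he, if_false, hc T hT, zero_add]
      apply hc
      rw [card_insert_of_notMem he]; omega
  · intro Y
    by_cases he : e ∈ Y
    · obtain ⟨Z, hZ, rfl⟩ : ∃ Z, e ∉ Z ∧ insert e Z = Y :=
        ⟨Y.erase e, notMem_erase e Y, insert_erase he⟩
      have h1 : symmDiff {e} (insert e Z) = Z := by
        ext x
        simp only [Finset.mem_symmDiff, mem_singleton, mem_insert]
        constructor
        · rintro (⟨h, h'⟩ | ⟨h, h'⟩)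
          · exact absurd (Or.inl h) h'
          · exact h.resolve_left h'
        · intro h
          exact Or.inr ⟨Or.inr h, fun h' => hZ (h' ▸ h)⟩
      rw [h1, sum_powerset_insert hZ, ← sum_add_distrib]
      apply sum_congr rfl
      intro T hT
      have hT' : e ∉ T := fun h => hZ (mem_powerset.1 hT h)
      simp only [hT', if_false, mem_insert_self, if_true]
      abel
    · have h1 : symmDiff {e} Y = insert e Y := by
        ext x
        simp only [Finset.mem_symmDiff, mem_singleton, mem_insert]
        constructor
        · rintro (⟨h, h'⟩ | ⟨h, h'⟩)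
          · exact Or.inl h
          · exact Or.inr h
        · rintro (h | h)
          · exact Or.inl ⟨h, fun h' => he (h ▸ h')⟩
          · exact Or.inr ⟨h, fun h' => he (h' ▸ h)⟩
      rw [h1, sum_powerset_insert he, ← sum_add_distrib]
      apply sum_congr rfl
      intro T hT
      have hT' : e ∉ T := fun h => he (mem_powerset.1 hT h)
      simp only [hT', if_false]

/-- toggling a finite set of elements -/
lemma toggle (D : ℕ) (c : Finset E → G) (hc : ∀ T, D < T.card → c T = 0) (E0 : Finset E) :
    ∃ c' : Finset E → G, (∀ T, D < T.card → c' T = 0) ∧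
      ∀ Y : Finset E, ∑ T ∈ (symmDiff E0 Y).powerset, c T = ∑ T ∈ Y.powerset, c' T := by
  induction E0 using Finset.induction_on with
  | empty => exact ⟨c, hc, fun Y => by rw [← Finset.bot_eq_empty, bot_symmDiff]⟩
  | insert e E1 he ih =>
    obtain ⟨c1, h1, h2⟩ := ih
    obtain ⟨c2, h3, h4⟩ := toggle_one D c1 h1 e
    refine ⟨c2, h3, fun Y => ?_⟩
    rw [← h4, ← h2]
    have : symmDiff (insert e E1) Y = symmDiff E1 (symmDiff {e} Y) := by
      rw [← symmDiff_assoc]
      congr 1
      ext x
      simp only [Finset.mem_symmDiff, mem_singleton, mem_insert]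
      constructor
      · rintro (h | h)
        · exact Or.inr ⟨h, fun h' => he (h ▸ h')⟩
        · exact Or.inl ⟨h, fun h' => he (h' ▸ h)⟩
      · rintro (⟨h, h'⟩ | ⟨h, h'⟩)
        · exact Or.inr h
        · exact Or.inl h
    rw [this]

end

end Pool.Agent.helper10.K4
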