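import Pool.Agent.helper10.K4.Local
import Pool.Agent.helper10.K4.Toggle

/-! # From functions of edge sets to graphs -/

namespace Pool.Agent.helper10.K4

open Finset

/-- the graph obtained from `A` by toggling the pairs in `X` -/
def tog {n : ℕ} (A : SimpleGraph (Fin n)) (X : Finset (ℕ × ℕ)) : SimpleGraph (Fin n) where
  Adj u v := u ≠ v ∧ ¬ (A.Adj u v ↔ (min (u : ℕ) v, max (u : ℕ) v) ∈ X)
  symm := ⟨fun u v h => by
    refine ⟨h.1.symm, ?_⟩
    rw [A.adj_comm, min_comm, max_comm]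
    exact h.2⟩
  loopless := ⟨fun u h => h.1 rfl⟩

/-- the ordered pair of an unordered pair -/
def key {n : ℕ} (e : Sym2 (Fin n)) : ℕ × ℕ :=
  Sym2.lift ⟨fun u v : Fin n => (min (u : ℕ) (v : ℕ), max (u : ℕ) (v : ℕ)), fun u v => by
    show (min (u : ℕ) (v : ℕ), max (u : ℕ) (v : ℕ)) = (min (v : ℕ) (u : ℕ), max (v : ℕ) (u : ℕ))
    rw [min_comm, max_comm]⟩ e

lemma key_mk {n : ℕ} (u v : Fin n) : key s(u, v) = (min (u : ℕ) v, max (u : ℕ) v) := rfl

lemma key_injective {n : ℕ} : Function.Injective (key : Sym2 (Fin n) → ℕ × ℕ) := by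
  intro e f
  induction e with | _ u v => ?_
  induction f with | _ x y => ?_
  rw [key_mk, key_mk, Prod.mk.injEq, Sym2.eq_iff]
  rintro ⟨h1, h2⟩
  rw [← Fin.val_inj, ← Fin.val_inj, ← Fin.val_inj, ← Fin.val_inj]
  omega

/-- the edges with key in `X` -/
def toE (n : ℕ) (X : Finset (ℕ × ℕ)) : Finset (Sym2 (Fin n)) :=
  univ.filter (fun e => key e ∈ X)

lemma image_toE {n : ℕ} {X : Finset (ℕ × ℕ)} (hX : ∀ p ∈ X, p.1 < p.2 ∧ p.2 < n) :
    (toE n X).image key = X := by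
  ext p
  simp only [mem_image, toE, mem_filter, mem_univ, true_and]
  constructor
  · rintro ⟨e, h, rfl⟩; exact h
  · intro h
    obtain ⟨h1, h2⟩ := hX p h
    refine ⟨s(⟨p.1, by omega⟩, ⟨p.2, h2⟩), ?_, ?_⟩
    · rw [key_mk]
      have : (min p.1 p.2, max p.1 p.2) = p := by
        rw [min_eq_left h1.le, max_eq_right h1.le]
      simpa only [this] using h
    · rw [key_mk]
      simp only [min_eq_left h1.le, max_eq_right h1.le]

lemma card_toE {n : ℕ} {X : Finset (ℕ × ℕ)} (hX : ∀ p ∈ X, p.1 < p.2 ∧ p.2 < n) :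
    (toE n X).card = X.card := by
  conv_rhs => rw [← image_toE hX]
  rw [card_image_of_injective _ key_injective]

/-- the edges of a graph -/
noncomputable def es {n : ℕ} (A : SimpleGraph (Fin n)) : Finset (Sym2 (Fin n)) := by
  classical exact univ.filter (fun e => e ∈ A.edgeSet)

lemma mem_es {n : ℕ} {A : SimpleGraph (Fin n)} {e : Sym2 (Fin n)} : e ∈ es A ↔ e ∈ A.edgeSet := by
  classical
  simp [es]

lemma es_tog {n : ℕ} (A : SimpleGraph (Fin n)) {X : Finset (ℕ × ℕ)} (hX : ∀ p ∈ X, p.1 < p.2) :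
    es (tog A X) = symmDiff (es A) (toE n X) := by
  classical
  ext e
  rw [Finset.mem_symmDiff, mem_es, mem_es]
  induction e with | _ u v => ?_
  simp only [toE, mem_filter, mem_univ, true_and, key_mk, SimpleGraph.mem_edgeSet]
  show (u ≠ v ∧ ¬ (A.Adj u v ↔ (min (u : ℕ) v, max (u : ℕ) v) ∈ X)) ↔ _
  by_cases huv : u = v
  · subst huv
    have h1 : ¬ A.Adj u u := A.irrefl
    have h2 : ¬ (min (u : ℕ) u, max (u : ℕ) u) ∈ X := fun h => by
      have := hX _ h
      simp at this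
    simp only [h1, h2]
    tauto
  · tauto

/-- a function of degree at most `D` of the edge set -/
noncomputable def Phi {n : ℕ} {G : Type} [AddCommGroup G] (D : ℕ)
    (c : Finset (Sym2 (Fin n)) → G) (A : SimpleGraph (Fin n)) : G :=
  ∑ T ∈ (es A).powerset, if T.card ≤ D then c T else 0

/-- the local statement for graphs -/
theorem local_graph (G : Type) [AddCommGroup G] [Finite G] (D : ℕ) :
    ∃ m, ∀ n, m ≤ n → ∀ (c : Finset (Sym2 (Fin n)) → G) (A : SimpleGraph (Fin n)),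
      ∃ A₁ A₂ : SimpleGraph (Fin n), Phi D c A₁ = Phi D c A ∧ Phi D c A₂ = Phi D c A ∧
        A₁ ≠ A₂ ∧ (∃ S : Finset (Fin n), S.card = 4 ∧
          ∀ u v : Fin n, (symmDiff A₁ A₂).Adj u v ↔ (u ∈ S ∧ v ∈ S ∧ u ≠ v)) ∧
        (∀ u v : Fin n, ¬ ((u : ℕ) < m ∧ (v : ℕ) < m) → (A₁.Adj u v ↔ A.Adj u v)) ∧
        (∀ u v : Fin n, ¬ ((u : ℕ) < m ∧ (v : ℕ) < m) → (A₂.Adj u v ↔ A.Adj u v)) := by
  classical
  obtain ⟨m, hm⟩ := found_fin G D
  refine ⟨m, fun n hn c A => ?_⟩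
  obtain ⟨c', hc1, hc2⟩ := toggle D (fun T => if T.card ≤ D then c T else 0)
    (fun T hT => if_neg (by omega)) (es A)
  have hPhi : ∀ X : Finset (ℕ × ℕ), (∀ p ∈ X, p.1 < p.2 ∧ p.2 < n) →
      Phi D c (tog A X) = ∑ T ∈ (toE n X).powerset, c' T := by
    intro X hX
    rw [Phi, es_tog A (fun p hp => (hX p hp).1), hc2]
  have hPhi0 : Phi D c A = c' ∅ := by
    have h := hc2 ∅
    rw [← Finset.bot_eq_empty, symmDiff_bot] at h
    rw [Phi, h]; simp
  set M : Finset (ℕ × ℕ) → G := fun T =>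
    if (∀ p ∈ T, p.1 < p.2 ∧ p.2 < n) then c' (toE n T) else 0 with hMdef
  have hM0 : ∀ T, D < T.card → M T = 0 := by
    intro T hT
    simp only [hMdef]
    split_ifs with h
    · apply hc1; rw [card_toE h]; exact hT
    · rfl
  have hSM : ∀ X : Finset (ℕ × ℕ), (∀ p ∈ X, p.1 < p.2 ∧ p.2 < n) →
      SM M X = ∑ T ∈ (toE n X).powerset, c' T := by
    intro X hX
    unfold SM
    apply sum_bij' (fun T _ => toE n T) (fun T _ => T.image key)
    · intro T hT
      rw [mem_powerset] at hT ⊢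
      intro e he
      simp only [toE, mem_filter, mem_univ, true_and] at he ⊢
      exact hT he
    · intro T hT
      rw [mem_powerset] at hT ⊢
      rw [← image_toE hX]
      exact image_subset_image hT
    · intro T hT
      exact image_toE fun p hp => hX p (mem_powerset.1 hT hp)
    · intro T hT
      ext e
      simp only [toE, mem_filter, mem_univ, true_and, mem_image]
      constructor
      · rintro ⟨f, hf, h⟩; rw [← key_injective h]; exact hf
      · intro h; exact ⟨e, h, rfl⟩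
    · intro T hT
      simp only [hMdef]
      rw [if_pos fun p hp => hX p (mem_powerset.1 hT hp)]
  have hMe : M ∅ = Phi D c A := by
    rw [hPhi0]; simp [hMdef, toE]
  obtain ⟨X, X', hX, hX', h1, h2, S, hS4, hSm, hS⟩ := hm M hM0
  have hXn : ∀ p ∈ X, p.1 < p.2 ∧ p.2 < n := fun p hp =>
    ⟨(hX p hp).1, lt_of_lt_of_le (hX p hp).2 hn⟩
  have hXn' : ∀ p ∈ X', p.1 < p.2 ∧ p.2 < n := fun p hp =>
    ⟨(hX' p hp).1, lt_of_lt_of_le (hX' p hp).2 hn⟩
  have hSS : ∀ u v : Fin n, (symmDiff (tog A X) (tog A X')).Adj u v ↔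
      (u ∈ univ.filter (fun w : Fin n => (w : ℕ) ∈ S) ∧
        v ∈ univ.filter (fun w : Fin n => (w : ℕ) ∈ S) ∧ u ≠ v) := by
    intro u v
    have h3 : (symmDiff (tog A X) (tog A X')).Adj u v ↔
        (u ≠ v ∧ ¬ ((min (u : ℕ) v, max (u : ℕ) v) ∈ X ↔ (min (u : ℕ) v, max (u : ℕ) v) ∈ X')) := by
      show ((tog A X).Adj u v ∧ ¬ (tog A X').Adj u v ∨ (tog A X').Adj u v ∧ ¬ (tog A X).Adj u v) ↔ _
      show (((u ≠ v ∧ ¬ (A.Adj u v ↔ (min (u : ℕ) v, max (u : ℕ) v) ∈ X)) ∧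
        ¬ (u ≠ v ∧ ¬ (A.Adj u v ↔ (min (u : ℕ) v, max (u : ℕ) v) ∈ X'))) ∨
        ((u ≠ v ∧ ¬ (A.Adj u v ↔ (min (u : ℕ) v, max (u : ℕ) v) ∈ X')) ∧
        ¬ (u ≠ v ∧ ¬ (A.Adj u v ↔ (min (u : ℕ) v, max (u : ℕ) v) ∈ X)))) ↔ _
      tauto
    rw [h3, hS]
    simp only [mem_filter, mem_univ, true_and]
    rcases lt_trichotomy u v with h | h | h
    · have h' : (u : ℕ) < v := h
      rw [min_eq_left h'.le, max_eq_right h'.le]
      have := h.ne
      tauto
    · subst h; tauto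
    · have h' : (v : ℕ) < u := h
      rw [min_eq_right h'.le, max_eq_left h'.le]
      have := h.ne'
      tauto
  have hScard : (univ.filter (fun w : Fin n => (w : ℕ) ∈ S)).card = 4 := by
    rw [← hS4]
    apply card_bij (fun (w : Fin n) _ => (w : ℕ))
    · intro w hw; simpa using hw
    · intro w _ w' _ h; exact Fin.val_injective h
    · intro x hx
      exact ⟨⟨x, lt_of_lt_of_le (hSm x hx) hn⟩, by simpa using hx, rfl⟩
  have hout : ∀ Z : Finset (ℕ × ℕ), (∀ p ∈ Z, p.1 < p.2 ∧ p.2 < m) → ∀ u v : Fin n,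
      ¬ ((u : ℕ) < m ∧ (v : ℕ) < m) → ((tog A Z).Adj u v ↔ A.Adj u v) := by
    intro Z hZ u v huv
    have h5 : ¬ (min (u : ℕ) v, max (u : ℕ) v) ∈ Z := by
      intro h
      have := (hZ _ h).2
      simp only [max_lt_iff] at this
      exact huv this
    show (u ≠ v ∧ ¬ (A.Adj u v ↔ (min (u : ℕ) v, max (u : ℕ) v) ∈ Z)) ↔ A.Adj u v
    have h6 : A.Adj u v → u ≠ v := fun h => h.ne
    tauto
  refine ⟨tog A X, tog A X', ?_, ?_, ?_, ⟨_, hScard, hSS⟩, hout X hX, hout X' hX'⟩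
  · rw [hPhi X hXn, ← hSM X hXn, h1, hMe]
  · rw [hPhi X' hXn', ← hSM X' hXn', h2, hMe]
  · intro heq
    have h7 : ∀ u v : Fin n, ¬ (symmDiff (tog A X) (tog A X')).Adj u v := by
      intro u v
      rw [heq, symmDiff_self]
      exact id
    obtain ⟨a, ha, b, hb, hab⟩ := Finset.one_lt_card.1 (by rw [hScard]; norm_num :
      1 < (univ.filter (fun w : Fin n => (w : ℕ) ∈ S)).card)
    exact h7 a b ((hSS a b).2 ⟨ha, hb, hab⟩)

end Pool.Agent.helper10.K4
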