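import Mathlib
import Pool.Agent.helper10.K4.Config
import Pool.Agent.helper61.ClopenRamsey

set_option autoImplicit false

/-!
Ramsey: every function of edge sets with finitely many values becomes order invariant on an infinite set
of vertices; compactness: the configuration of `Config.lean` exists on boundedly many vertices, for every
function `M` of edge sets which vanishes on the sets with more than `D` edges.
-/

namespace Pool.Agent.helper10.K4

open Finset

/-- an increasing sequence which starts with the values of `σ` on a finite set -/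
lemma exists_seq (V : Finset ℕ) (σ : ℕ → ℕ) (hσ : ∀ x ∈ V, ∀ y ∈ V, x < y → σ x < σ y) :
    ∃ g : ℕ → ℕ, StrictMono g ∧ ∀ i (h : i < V.card), g i = σ (V.orderEmbOfFin rfl ⟨i, h⟩) := by
  classical
  refine ⟨fun i => if h : i < V.card then σ (V.orderEmbOfFin rfl ⟨i, h⟩) else V.sup σ + 1 + i,
    ?_, fun i h => by simp [h]⟩
  intro i j hij
  simp only
  by_cases hj : j < V.card
  · have hi : i < V.card := by omega
    simp only [hi, hj, dif_pos]
    exact hσ _ (Finset.orderEmbOfFin_mem V rfl _) _ (Finset.orderEmbOfFin_mem V rfl _)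
      ((V.orderEmbOfFin rfl).strictMono (by simpa using hij))
  · by_cases hi : i < V.card
    · simp only [hi, hj, dif_pos, dif_neg, not_false_iff]
      have : σ (V.orderEmbOfFin rfl ⟨i, hi⟩) ≤ V.sup σ :=
        Finset.le_sup (f := σ) (Finset.orderEmbOfFin_mem V rfl _)
      omega
    · simp only [hi, hj, dif_neg, not_false_iff]
      omega

theorem exists_ordInv {G : Type} [Finite G] (M : Finset (ℕ × ℕ) → G) (k : ℕ) :
    ∃ e : ℕ → ℕ, StrictMono e ∧ OrdInv (fun T => M (mp e T)) k := by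
  classical
  let c : (ℕ → ℕ) → (Finset (Fin k × Fin k) → G) :=
    fun Y S => M (S.image (fun p => (Y p.1, Y p.2)))
  have hLC : H61.BQO.LC c := by
    intro X
    refine ⟨k, fun Y hY => ?_⟩
    funext S
    simp only [c]
    congr 1
    apply Finset.image_congr
    intro p _
    simp only
    rw [hY _ p.1.2, hY _ p.2.2]
  obtain ⟨B, -, hBi, κ, hκ⟩ := H61.BQO.ramsey c hLC Set.univ Set.infinite_univ
  obtain ⟨e, he⟩ := H61.BQO.exists_sub B hBi
  refine ⟨e, he.1, ?_⟩
  intro T σ hT hσ hk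
  set V := vs T with hV
  obtain ⟨w, hw, hw'⟩ := exists_seq V id (fun x _ y _ h => h)
  obtain ⟨g, hg, hg'⟩ := exists_seq V σ hσ
  have hgw : ∀ i, i < V.card → g i = σ (w i) := by
    intro i hi
    rw [hg' i hi, hw' i hi]
    rfl
  have hsurj : ∀ x ∈ V, ∃ i, i < V.card ∧ w i = x := by
    intro x hx
    have : x ∈ Set.range (V.orderEmbOfFin rfl) := by
      rw [Finset.range_orderEmbOfFin]; exact hx
    obtain ⟨i, hi⟩ := this
    exact ⟨i, i.2, by rw [hw' i i.2]; simpa using hi⟩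
  let S : Finset (Fin k × Fin k) := univ.filter
    (fun p => (p.1 : ℕ) < V.card ∧ (p.2 : ℕ) < V.card ∧ (w p.1, w p.2) ∈ T)
  have key : ∀ (τ f : ℕ → ℕ), (∀ i, i < V.card → f i = τ (w i)) →
      S.image (fun p => (e (f p.1), e (f p.2))) = mp e (mp τ T) := by
    intro τ f hf
    ext ⟨x, y⟩
    simp only [mp, mem_image, S, mem_filter, mem_univ, true_and, Prod.exists, Prod.map_apply,
      Prod.mk.injEq]
    constructor
    · rintro ⟨a, b, ⟨h1, h2, h3⟩, h4, h5⟩
      refine ⟨τ (w a), τ (w b), ⟨w a, w b, h3, rfl, rfl⟩, ?_, ?_⟩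
      · rw [← hf _ h1]; exact h4
      · rw [← hf _ h2]; exact h5
    · rintro ⟨a, b, ⟨u, v, huv, rfl, rfl⟩, h4, h5⟩
      obtain ⟨i, hi, rfl⟩ := hsurj u (fst_mem_vs huv)
      obtain ⟨j, hj, rfl⟩ := hsurj v (snd_mem_vs huv)
      refine ⟨⟨i, by omega⟩, ⟨j, by omega⟩, ⟨hi, hj, huv⟩, ?_, ?_⟩
      · simp only; rw [hf _ hi]; exact h4
      · simp only; rw [hf _ hj]; exact h5
  have e1 : c (e ∘ w) = κ :=
    hκ _ ⟨he.1.comp hw, fun n => he.2 _⟩
  have e2 : c (e ∘ g) = κ :=
    hκ _ ⟨he.1.comp hg, fun n => he.2 _⟩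
  have e3 : c (e ∘ w) S = M (mp e (mp id T)) := by
    simp only [c, Function.comp]
    rw [key id w (fun i _ => rfl)]
  have e4 : c (e ∘ g) S = M (mp e (mp σ T)) := by
    simp only [c, Function.comp]
    rw [key σ g hgw]
  have e5 : mp id T = T := mp_eq_self (fun x _ => rfl)
  show M (mp e (mp σ T)) = M (mp e T)
  rw [← e4, e2, ← e1, e3, e5]

lemma card_dvd_choose (N k j : ℕ) (h1 : 1 ≤ j) (h2 : j ≤ k) : N ∣ (N * k.factorial).choose j := by
  rcases Nat.eq_zero_or_pos N with rfl | hN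
  · simp only [zero_mul]
    rw [Nat.choose_eq_zero_of_lt (by omega)]
  obtain ⟨t, ht⟩ := Nat.dvd_factorial (by omega : 0 < j) h2
  obtain ⟨q, hq⟩ : ∃ q, N * k.factorial = q + 1 :=
    ⟨N * k.factorial - 1, by
      have := Nat.mul_pos hN (Nat.factorial_pos k)
      omega⟩
  obtain ⟨i, rfl⟩ : ∃ i, j = i + 1 := ⟨j - 1, by omega⟩
  have h3 := Nat.add_one_mul_choose_eq q i
  rw [← hq] at h3
  refine ⟨t * q.choose i, ?_⟩
  apply Nat.eq_of_mul_eq_mul_right (by omega : 0 < i + 1)
  rw [← h3, ht]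
  ring

lemma ult_const {G : Type} [Finite G] (U : Ultrafilter ℕ) (f : ℕ → G) :
    ∃ g, ∀ᶠ n in (U : Filter ℕ), f n = g := by
  obtain ⟨a, ha⟩ := Ultrafilter.eq_pure_of_finite (U.map f)
  refine ⟨a, ?_⟩
  have : ({a} : Set G) ∈ U.map f := by rw [ha]; simp
  rw [Ultrafilter.mem_map] at this
  exact this

lemma card_vs_le (T : Finset (ℕ × ℕ)) : (vs T).card ≤ 2 * T.card := by
  unfold vs
  calc _ ≤ (T.image Prod.fst).card + (T.image Prod.snd).card := card_union_le _ _
    _ ≤ T.card + T.card := add_le_add card_image_le card_image_le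
    _ = 2 * T.card := by ring

lemma mp_injective {e : ℕ → ℕ} (he : StrictMono e) : Function.Injective (Prod.map e e) :=
  Function.Injective.prodMap he.injective he.injective

lemma SM_mp {G : Type} [AddCommGroup G] (M : Finset (ℕ × ℕ) → G) {e : ℕ → ℕ} (he : StrictMono e)
    (Z : Finset (ℕ × ℕ)) : SM M (mp e Z) = SM (fun T => M (mp e T)) Z := by
  classical
  unfold SM
  have : (mp e Z).powerset = Z.powerset.image (mp e) := by
    ext T
    simp only [mem_powerset, mem_image, mp]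
    rw [Finset.subset_image_iff]
  rw [this, Finset.sum_image]
  intro S _ T _ hST
  exact Finset.image_injective (mp_injective he) hST

/-- what is found in every function of edge sets of bounded degree -/
def Found {G : Type} [AddCommGroup G] (m : ℕ) (M : Finset (ℕ × ℕ) → G) : Prop :=
  ∃ X X' : Finset (ℕ × ℕ), (∀ p ∈ X, p.1 < p.2 ∧ p.2 < m) ∧ (∀ p ∈ X', p.1 < p.2 ∧ p.2 < m) ∧
    SM M X = M ∅ ∧ SM M X' = M ∅ ∧
    ∃ S : Finset ℕ, S.card = 4 ∧ (∀ x ∈ S, x < m) ∧
      ∀ x y, ¬ ((x, y) ∈ X ↔ (x, y) ∈ X') ↔ (x < y ∧ x ∈ S ∧ y ∈ S)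

/-- the infinite version -/
theorem found_inf {G : Type} [AddCommGroup G] [Finite G] (D : ℕ) (M : Finset (ℕ × ℕ) → G)
    (hM : ∀ T, D < T.card → M T = 0) : ∃ m, Found m M := by
  classical
  obtain ⟨e, he, hinv⟩ := exists_ordInv M (2 * D)
  set M' : Finset (ℕ × ℕ) → G := fun T => M (mp e T) with hM'
  have hM0 : ∀ T, 2 * D < (vs T).card → M' T = 0 := by
    intro T hT
    apply hM
    have : (mp e T).card = T.card := card_image_of_injective _ (mp_injective he)
    rw [this]
    have := card_vs_le T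
    omega
  set q := Nat.card G * (2 * D).factorial with hq
  have hq1 : 1 ≤ q := Nat.mul_pos Nat.card_pos (Nat.factorial_pos _)
  have hqk : ∀ j, 1 ≤ j → j ≤ 2 * D → ∀ g : G, (q.choose j) • g = 0 := by
    intro j h1 h2 g
    obtain ⟨t, ht⟩ := card_dvd_choose (Nat.card G) (2 * D) j h1 h2
    rw [← hq] at ht
    rw [ht, mul_comm, mul_smul, card_nsmul_eq_zero', smul_zero]
  obtain ⟨c1, c2⟩ := config hinv hM0 hqk hq1
  have hemp : M' ∅ = M ∅ := by simp [hM', mp]
  refine ⟨e (3 * q + 1), mp e (Zg q RX {0, 1, 2, 3, 4, 5, 6}),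
    mp e (Zg q RX' {0, 1, 2, 3, 4, 5, 6}), ?_, ?_, ?_, ?_,
    ({0, 1, q + 1, 2 * q + 1} : Finset ℕ).image e, ?_, ?_, ?_⟩
  · intro p hp
    obtain ⟨⟨x, y⟩, hr, rfl⟩ := mem_image.1 hp
    obtain ⟨⟨l1, l2⟩, l3, -⟩ := mem_Zg.1 hr
    exact ⟨he l3, he l2⟩
  · intro p hp
    obtain ⟨⟨x, y⟩, hr, rfl⟩ := mem_image.1 hp
    obtain ⟨⟨l1, l2⟩, l3, -⟩ := mem_Zg.1 hr
    exact ⟨he l3, he l2⟩
  · rw [SM_mp M he, c1, hemp]
  · rw [SM_mp M he, c2, hemp]
  · rw [card_image_of_injective _ he.injective]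
    rw [card_insert_of_notMem, card_insert_of_notMem, card_insert_of_notMem, card_singleton]
    · simp only [mem_singleton]; omega
    · simp only [mem_insert, mem_singleton]; omega
    · simp only [mem_insert, mem_singleton]; omega
  · intro x hx
    obtain ⟨y, hy, rfl⟩ := mem_image.1 hx
    apply he
    simp only [mem_insert, mem_singleton] at hy
    omega
  · intro x y
    have hmem : ∀ Z : Finset (ℕ × ℕ), (x, y) ∈ mp e Z ↔ ∃ a b, (a, b) ∈ Z ∧ e a = x ∧ e b = y := by
      intro Z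
      simp only [mp, mem_image, Prod.exists, Prod.map_apply, Prod.mk.injEq]
    by_cases hxy : ∃ a b, e a = x ∧ e b = y
    · obtain ⟨a, b, rfl, rfl⟩ := hxy
      have hmem' : ∀ Z : Finset (ℕ × ℕ), (e a, e b) ∈ mp e Z ↔ (a, b) ∈ Z := by
        intro Z
        rw [hmem]
        constructor
        · rintro ⟨a', b', h, h1, h2⟩
          rw [← he.injective h1, ← he.injective h2]; exact h
        · intro h; exact ⟨a, b, h, rfl, rfl⟩
      rw [hmem', hmem', config_diff hq1, he.lt_iff_lt]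
      simp only [mem_image, he.injective.eq_iff, exists_eq_right]
    · have h1 : ∀ Z : Finset (ℕ × ℕ), ¬ (x, y) ∈ mp e Z := by
        intro Z h
        obtain ⟨a, b, -, h1, h2⟩ := (hmem Z).1 h
        exact hxy ⟨a, b, h1, h2⟩
      simp only [h1, not_true_eq_false, false_iff]
      rintro ⟨-, h2, h3⟩
      obtain ⟨a, -, ha⟩ := mem_image.1 h2
      obtain ⟨b, -, hb⟩ := mem_image.1 h3
      exact hxy ⟨a, b, ha, hb⟩

lemma Found.mono {G : Type} [AddCommGroup G] {m m' : ℕ} {M : Finset (ℕ × ℕ) → G} (h : Found m M)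
    (hm : m ≤ m') : Found m' M := by
  obtain ⟨X, X', h1, h2, h3, h4, S, h5, h6, h7⟩ := h
  exact ⟨X, X', fun p hp => ⟨(h1 p hp).1, lt_of_lt_of_le (h1 p hp).2 hm⟩,
    fun p hp => ⟨(h2 p hp).1, lt_of_lt_of_le (h2 p hp).2 hm⟩, h3, h4, S, h5,
    fun x hx => lt_of_lt_of_le (h6 x hx) hm, h7⟩

/-- **the finite version**: the number of vertices needed depends on `G` and `D` only. -/
theorem found_fin (G : Type) [AddCommGroup G] [Finite G] (D : ℕ) :
    ∃ m, ∀ M : Finset (ℕ × ℕ) → G, (∀ T, D < T.card → M T = 0) → Found m M := by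
  classical
  by_contra hcon
  push Not at hcon
  choose Mn hMn hbad using hcon
  let U : Ultrafilter ℕ := Filter.hyperfilter ℕ
  have hlim : ∀ T, ∃ g, ∀ᶠ n in (U : Filter ℕ), Mn n T = g := fun T => ult_const U _
  choose M hM using hlim
  have hM0 : ∀ T, D < T.card → M T = 0 := by
    intro T hT
    obtain ⟨n, hn⟩ := (hM T).exists
    rw [← hn]; exact hMn n T hT
  obtain ⟨m, X, X', h1, h2, h3, h4, hS⟩ := found_inf D M hM0
  have hev : ∀ᶠ n in (U : Filter ℕ), ∀ T ∈ (X ∪ X').powerset, Mn n T = M T := by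
    rw [Filter.eventually_all_finset]
    intro T _
    exact hM T
  have hge : ∀ᶠ n in (U : Filter ℕ), m ≤ n := by
    have : ∀ᶠ n in Filter.cofinite, m ≤ n := by
      rw [Nat.cofinite_eq_atTop]; exact Filter.eventually_ge_atTop m
    exact Filter.hyperfilter_le_cofinite this
  obtain ⟨n, hn1, hn2⟩ := (hev.and hge).exists
  apply hbad n
  refine Found.mono (m := m) ⟨X, X', h1, h2, ?_, ?_, hS⟩ hn2
  · rw [hn1 ∅ (by simp), ← h3]
    unfold SM
    apply Finset.sum_congr rfl
    intro T hT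
    exact hn1 T (mem_powerset.2 ((mem_powerset.1 hT).trans subset_union_left))
  · rw [hn1 ∅ (by simp), ← h4]
    unfold SM
    apply Finset.sum_congr rfl
    intro T hT
    exact hn1 T (mem_powerset.2 ((mem_powerset.1 hT).trans subset_union_right))

end Pool.Agent.helper10.K4
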